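import Pool.Agent.Lib.MP_a60258_c3.Limit

/-!
# Sixth cumulant of holomorphic chaos elements: definitions and interfaces

`F` is a polynomial over `ℂ` in finitely many variables, homogeneous of degree `p`; the variables
are replaced by independent complex Gaussians `ζ j = ω (2 j) + i ω (2 j + 1)`.
-/

open MeasureTheory ProbabilityTheory MvPolynomial Finset

namespace Pool.Agent.Hol

/-- the multi-index of a word: `cnt u t` is the number of positions with the letter `t` -/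
def cnt {τ : Type} [DecidableEq τ] {N : ℕ} (u : Fin N → τ) (t : τ) : ℕ := #{k | u k = t}

section

variable {σ : Type} [Fintype σ] [DecidableEq σ]

/-- the derivatives of a polynomial at the origin -/
noncomputable def fc (F : MvPolynomial σ ℂ) (m : σ → ℕ) : ℂ :=
  (∏ s, ((m s).factorial : ℂ)) * coeff (Finsupp.equivFunOnFinite.symm m) F

/-- `∑ γ! |coeff_γ G|²` for a homogeneous polynomial `G` of degree `N`, written with words -/
noncomputable def nrm (N : ℕ) (G : MvPolynomial σ ℂ) : ℝ :=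
  (∑ v : Fin N → σ, ‖fc G (cnt v)‖ ^ 2) / (N.factorial : ℝ)

end

/-! ### Module CL: counting words -/

/-- the sum over words is the sum over multi-indices with weight `N! / m!` -/
def CL : Prop :=
  ∀ (τ : Type) [Fintype τ] [DecidableEq τ] (N L : ℕ), N ≤ L → ∀ Φ : (τ → ℕ) → ℂ,
    (∀ m, ∑ t, m t ≠ N → Φ m = 0) →
    ∑ u : Fin N → τ, Φ (cnt u)
      = (N.factorial : ℂ) * ∑ m ∈ Fintype.piFinset (fun _ : τ => range (L + 1)),
          Φ m / ∏ t, ((m t).factorial : ℂ)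

/-! ### Module LEIB: the Leibniz rule on words -/

/-- Leibniz rule: a derivative of a product of `k` polynomials -/
def LEIB : Prop :=
  ∀ (σ : Type) [Fintype σ] [DecidableEq σ] (k N : ℕ) (F : Fin k → MvPolynomial σ ℂ)
    (v : Fin N → σ),
    fc (∏ i, F i) (cnt v)
      = ∑ w : Fin N → Fin k, ∏ i, fc (F i) (fun s => #{n | v n = s ∧ w n = i})

/-- the data of a derivative, and of homogeneous polynomials -/
def FCD : Prop :=
  ∀ (σ : Type) [Fintype σ] [DecidableEq σ] (F : MvPolynomial σ ℂ),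
    (∀ s (m : σ → ℕ), fc (pderiv s F) m = fc F (m + Pi.single s 1)) ∧
    (∀ p, F.IsHomogeneous p → ∀ m : σ → ℕ, ∑ s, m s ≠ p → fc F m = 0)

/-! ### Modules KER and IDEN: the kernel -/

/-- the kernel of the cut, as a function of the four crossing multiplicities
`y11, y12, y21, y22`; the fifth one is `c` -/
noncomputable def KK (p c y11 y12 y21 y22 : ℝ) : ℝ :=
  let n1 := y11 + y12
  let n2 := y21 + y22
  let n1' := y11 + y21
  let n2' := y12 + y22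
  let a := p - n1
  let b := p - n2
  let a' := p - n1'
  let b' := p - n2'
  let v := n1 * n2 * n1' * n2'
  let d := y11 * y22 - y12 * y21
  let P := (p + c) / 2
  let s := (p - c) / 2
  let Z := (p * s * v - 2 * c * p * (a - s) * (a' - s) * d - c * s * d ^ 2) / (2 * P ^ 2)
  let G := (p * v + c * d ^ 2) / (2 * P)
  if 0 < a ∧ 0 < b ∧ 0 < a' ∧ 0 < b' then a * b * a' * b' * G / Z ^ 2 else 0

/-- the number of positions where `w` has the letter `i` and `w'` has the letter `j` -/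
def ov {n : ℕ} (w w' : Fin n → Fin 2) (i j : Fin 2) : ℕ := #{k | w k = i ∧ w' k = j}

/-- the kernel is positive semidefinite on the words of length `p + c` -/
def KER : Prop :=
  ∀ p c : ℕ, c < p → ∀ z : (Fin (p + c) → Fin 2) → ℂ,
    0 ≤ (∑ w, ∑ w', (KK p c (ov w w' 0 0) (ov w w' 0 1) (ov w w' 1 0) (ov w w' 1 1) : ℂ)
      * z w * (starRingEnd ℂ) (z w')).re

/-- the row rule -/
def IDEN : Prop :=
  ∀ p x11 x12 x13 x21 x22 x23 x31 x32 x33 : ℕ,
    x11 + x12 + x13 = p → x21 + x22 + x23 = p → x31 + x32 + x33 = p →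
    x11 + x21 + x31 = p → x12 + x22 + x32 = p → x13 + x23 + x33 = p →
    x11 < p → x12 < p → x13 < p → x21 < p → x22 < p → x23 < p → x31 < p → x32 < p → x33 < p →
    KK p x33 x11 x12 x21 x22 + KK p x32 x11 x13 x21 x23 + KK p x31 x12 x13 x22 x23 = 1

/-- the kernel in the block `c = 0` -/
def KZERO : Prop :=
  ∀ p y11 y12 y21 y22 : ℕ, y11 + y12 + y21 + y22 = p →
    0 < y11 + y12 → 0 < y21 + y22 → 0 < y11 + y21 → 0 < y12 + y22 → KK p 0 y11 y12 y21 y22 = 1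

/-! ### Module TAB: the inequalities for polynomials -/

/-- `κ₂₂ ≥ |∂F|⁴` and `κ₃₃ κ₁₁ ≥ 3 κ₂₂²` -/
def ALG : Prop :=
  ∀ (σ : Type) [Fintype σ] [DecidableEq σ] (p : ℕ), 2 ≤ p → ∀ F : MvPolynomial σ ℂ,
    F.IsHomogeneous p →
    (∀ s, nrm (p - 1) (pderiv s F) ^ 2 ≤ nrm (2 * p) (F ^ 2) - 2 * nrm p F ^ 2) ∧
    3 * (nrm (2 * p) (F ^ 2) - 2 * nrm p F ^ 2) ^ 2
      ≤ (nrm (3 * p) (F ^ 3) - 9 * nrm p F * nrm (2 * p) (F ^ 2) + 12 * nrm p F ^ 3) * nrm p F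

/-! ### Module GAUSS: the Gaussian side -/

/-- the complex Gaussians -/
noncomputable def zet (ω : ℕ → ℝ) (j : ℕ) : ℂ := (ω (2 * j) : ℂ) + (ω (2 * j + 1) : ℂ) * Complex.I

/-- the real part of a homogeneous polynomial in the complex Gaussians is in the chaos -/
def GAUSS : Prop :=
  ∀ (n p : ℕ), 2 ≤ p → ∀ F : MvPolynomial (Fin n) ℂ, F.IsHomogeneous p →
    ∃ P : A602.R, (∀ ω : ℕ → ℝ, eval ω P = (eval (fun j : Fin n => zet ω j) F).re) ∧
      (∃ S, A602.Cha S p P) ∧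
      A602.E (P ^ 2) = 2 ^ p / 2 * nrm p F ∧
      A602.E (P ^ 3) = 0 ∧
      A602.E (P ^ 4) = 3 / 8 * 2 ^ (2 * p) * nrm (2 * p) (F ^ 2) ∧
      A602.E (P ^ 6) = 5 / 16 * 2 ^ (3 * p) * nrm (3 * p) (F ^ 3) ∧
      (∀ j : Fin n, A602.E (pderiv (2 * (j : ℕ)) P ^ 2)
          = 2 ^ (p - 1) / 2 * nrm (p - 1) (pderiv j F) ∧
        A602.E (pderiv (2 * (j : ℕ) + 1) P ^ 2) = 2 ^ (p - 1) / 2 * nrm (p - 1) (pderiv j F)) ∧
      (∀ i : ℕ, 2 * n ≤ i → pderiv i P = 0)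

/-! ### Module LIM: the limit -/

/-- the fourth cumulant of a centred polynomial -/
noncomputable def k4 (P : A602.R) : ℝ := A602.E (P ^ 4) - 3 * A602.E (P ^ 2) ^ 2

/-- passage to the limit in a family `Q` of polynomials of the `p`-th chaos -/
def LIM : Prop :=
  ∀ (p : ℕ), 1 ≤ p → ∀ (c0 : ℝ), 0 < c0 → ∀ Q : A602.R → Prop,
    (∀ P, Q P → ∃ S, A602.Cha S p P) →
    (∀ P, Q P → ∀ i, c0 * A602.E (pderiv i P ^ 2) ^ 2 ≤ k4 P) →
    (∀ P, Q P → 10 * k4 P ^ 2 ≤ 3 * (A602.k6 P * A602.E (P ^ 2))) →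
    ∀ X : (ℕ → ℝ) → ℝ, MemLp X 2 A602.γ →
    (∀ ε : ℝ, 0 < ε → ∃ P, Q P ∧ ∫ ω, (X ω - eval ω P) ^ 2 ∂A602.γ < ε) →
    ¬ (∀ᵐ ω ∂A602.γ, X ω = 0) →
    0 < (∫ ω, X ω ^ 4 ∂A602.γ) - 3 * (∫ ω, X ω ^ 2 ∂A602.γ) ^ 2 ∧
    10 * ((∫ ω, X ω ^ 4 ∂A602.γ) - 3 * (∫ ω, X ω ^ 2 ∂A602.γ) ^ 2) ^ 2
      ≤ 3 * (A602.kap6 X * ∫ ω, X ω ^ 2 ∂A602.γ)

end Pool.Agent.Hol
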